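import Pool.Agent.H95.FC.Targets
import Pool.Agent.H55.FM.GCD

/-!
Row ATCB of the board fmx_modules (`MP_52e316_nt`): the number of the lines.
-/

set_option autoImplicit false

open MeasureTheory Set Filter NumberField
open scoped Real nonZeroDivisors Matrix MatrixGroups

namespace Pool.Agent.H62.FC

open Pool.Agent.H31.CN Pool.Agent.H89.FM Pool.Agent.H61.FM Pool.Agent.H89.FC Pool.Agent.H95.FC

/-- the pairs of a line and a unit modulo `f` inject into the pairs of residues -/
theorem card_mul_totient {f : ℕ} {Q : QF} {T : Finset (ℤ × ℤ)} {W : ℤ × ℤ → ℤ × ℤ} (hf : 1 ≤ f)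
    (h : LT f Q T W) : T.card * f.totient ≤ f ^ 2 := by
  classical
  have hf0 : (f : ℤ) ≠ 0 := by
    have : f ≠ 0 := by omega
    exact_mod_cast this
  have hfp : (0 : ℤ) < f := by
    have : 0 < f := by omega
    exact_mod_cast this
  have e1 : f.totient = ((Finset.range f).filter (fun a => f.Coprime a)).card :=
    Nat.totient_eq_card_coprime f
  rw [e1, ← Finset.card_product]
  have e2 : f ^ 2 = ((Finset.range f) ×ˢ (Finset.range f)).card := by
    rw [Finset.card_product, Finset.card_range, sq]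
  rw [e2]
  refine Finset.card_le_card_of_injOn
    (fun x => ((((x.2 : ℤ) * x.1.1) % f).toNat, (((x.2 : ℤ) * x.1.2) % f).toNat)) ?_ ?_
  · rintro ⟨V, a⟩ _
    simp only [Finset.coe_product, Set.mem_prod, Finset.coe_range, Set.mem_Iio]
    have h1 := Int.emod_lt_of_pos ((a : ℤ) * V.1) hfp
    have h2 := Int.emod_lt_of_pos ((a : ℤ) * V.2) hfp
    have h3 := Int.emod_nonneg ((a : ℤ) * V.1) hf0
    have h4 := Int.emod_nonneg ((a : ℤ) * V.2) hf0
    constructor <;> omega
  · rintro ⟨V, a⟩ hx ⟨V', a'⟩ hx' e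
    simp only [Finset.coe_product, Set.mem_prod, Finset.mem_coe, Finset.mem_filter,
      Finset.mem_range] at hx hx'
    obtain ⟨hV, ha, hac⟩ := hx
    obtain ⟨hV', ha', hac'⟩ := hx'
    simp only [Prod.mk.injEq] at e
    obtain ⟨e3, e4⟩ := e
    have m1 : (f : ℤ) ∣ (a : ℤ) * V.1 - (a' : ℤ) * V'.1 := by
      have h1 := Int.emod_nonneg ((a : ℤ) * V.1) hf0
      have h2 := Int.emod_nonneg ((a' : ℤ) * V'.1) hf0
      have h3 : ((a : ℤ) * V.1) % f = ((a' : ℤ) * V'.1) % f := by omega
      exact Int.ModEq.dvd (Int.ModEq.symm h3)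
    have m2 : (f : ℤ) ∣ (a : ℤ) * V.2 - (a' : ℤ) * V'.2 := by
      have h1 := Int.emod_nonneg ((a : ℤ) * V.2) hf0
      have h2 := Int.emod_nonneg ((a' : ℤ) * V'.2) hf0
      have h3 : ((a : ℤ) * V.2) % f = ((a' : ℤ) * V'.2) % f := by omega
      exact Int.ModEq.dvd (Int.ModEq.symm h3)
    have hc : IsCoprime (f : ℤ) (a : ℤ) := Nat.isCoprime_iff_coprime.mpr hac
    have d1 : (f : ℤ) ∣ (a : ℤ) * det V' V := by
      have : (a : ℤ) * det V' V = V'.1 * ((a : ℤ) * V.2 - (a' : ℤ) * V'.2) -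
          V'.2 * ((a : ℤ) * V.1 - (a' : ℤ) * V'.1) := by
        simp only [det]
        ring
      rw [this]
      exact dvd_sub (dvd_mul_of_dvd_right m2 _) (dvd_mul_of_dvd_right m1 _)
    have d2 : (f : ℤ) ∣ det V' V := hc.dvd_of_dvd_mul_left d1
    have hVV : V' = V := h.uni V' hV' V hV d2
    subst hVV
    have d3 : (f : ℤ) ∣ (a : ℤ) - a' := by
      have h1 := h.one V' hV'
      have : (a : ℤ) - a' = (W V').2 * ((a : ℤ) * V'.1 - (a' : ℤ) * V'.1) -
          (W V').1 * ((a : ℤ) * V'.2 - (a' : ℤ) * V'.2) := by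
        have h2 : V'.1 * (W V').2 - V'.2 * (W V').1 = 1 := h1
        linear_combination ((a : ℤ) - a') * (-1) * h2 + 0
      rw [this]
      exact dvd_sub (dvd_mul_of_dvd_right m1 _) (dvd_mul_of_dvd_right m2 _)
    have : (a : ℤ) = a' := by
      obtain ⟨c, hc⟩ := d3
      have h1 : c = 0 := by
        by_contra hne
        rcases lt_or_gt_of_ne hne with h | h
        · nlinarith
        · nlinarith
      rw [h1] at hc
      omega
    have : a = a' := by exact_mod_cast this
    rw [this]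

/-- `f` is at most `2 ^ ω(f)` times the totient of `f` -/
theorem le_two_pow_mul_totient {f : ℕ} (hf : f ≠ 0) :
    f ≤ 2 ^ f.primeFactors.card * f.totient := by
  have h1 := Nat.totient_mul_prod_primeFactors f
  have h2 : ∏ p ∈ f.primeFactors, p ≤ 2 ^ f.primeFactors.card * ∏ p ∈ f.primeFactors, (p - 1) := by
    rw [← Finset.prod_const, ← Finset.prod_mul_distrib]
    refine Finset.prod_le_prod' fun p hp => ?_
    have := (Nat.prime_of_mem_primeFactors hp).two_le
    omega
  have h3 : 0 < ∏ p ∈ f.primeFactors, (p - 1) := by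
    refine Finset.prod_pos fun p hp => ?_
    have := (Nat.prime_of_mem_primeFactors hp).two_le
    omega
  have h4 : f * ∏ p ∈ f.primeFactors, (p - 1) ≤
      (2 ^ f.primeFactors.card * f.totient) * ∏ p ∈ f.primeFactors, (p - 1) := by
    calc f * ∏ p ∈ f.primeFactors, (p - 1) = f.totient * ∏ p ∈ f.primeFactors, p := h1.symm
      _ ≤ f.totient * (2 ^ f.primeFactors.card * ∏ p ∈ f.primeFactors, (p - 1)) :=
          Nat.mul_le_mul_left _ h2
      _ = _ := by ring
  exact Nat.le_of_mul_le_mul_right h4 h3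

theorem pf_TCB : Pool.Agent.H95.FC.T_TCB := by
  intro ε hε
  obtain ⟨C, hC, hD⟩ := Pool.Agent.H89.Cubic.div_bound ε hε
  refine ⟨C, hC, fun f Q T W hf h => ?_⟩
  have hf0 : f ≠ 0 := by omega
  have hfR : (0 : ℝ) < f := by exact_mod_cast (show 0 < f by omega)
  have h1 := card_mul_totient hf h
  have h2 := le_two_pow_mul_totient hf0
  have ht : 0 < f.totient := Nat.totient_pos.mpr (by omega)
  have h3 : T.card ≤ f * 2 ^ f.primeFactors.card := by
    refine Nat.le_of_mul_le_mul_right ?_ ht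
    calc T.card * f.totient ≤ f ^ 2 := h1
      _ = f * f := sq f
      _ ≤ f * (2 ^ f.primeFactors.card * f.totient) := Nat.mul_le_mul_left _ h2
      _ = f * 2 ^ f.primeFactors.card * f.totient := by ring
  have h4 : (2 : ℝ) ^ f.primeFactors.card ≤ C * (f : ℝ) ^ ε :=
    le_trans (by exact_mod_cast Pool.Agent.H55.FM.two_pow_le_card_divisors hf0) (hD f hf)
  calc (T.card : ℝ) ≤ (f : ℝ) * 2 ^ f.primeFactors.card := by exact_mod_cast h3
    _ ≤ (f : ℝ) * (C * (f : ℝ) ^ ε) := mul_le_mul_of_nonneg_left h4 hfR.le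
    _ = C * (f : ℝ) ^ (1 + ε) := by
        rw [Real.rpow_add hfR, Real.rpow_one]
        ring

end Pool.Agent.H62.FC
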